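/-
Project SEY3 (MP_b6b2d3_co), packet STL.
-/
import Pool.Agent.Helper63.Sey3.Goals

set_option autoImplicit false

namespace Pool.Agent.Helper46.Sey3

open Pool.Agent.Helper63.Sey3

variable {V : Type} (P : Sy V)

theorem pk_congr (ω : P.Om) (π π' : V → Equiv.Perm (Fin P.q)) (c : V → Option (Fin P.q)) (v : V)
    (h : π v = π' v) : P.pk (P.setpm ω π) c v = P.pk (P.setpm ω π') c v := by
  show Pool.Agent.Helper8.Sey.Sys.pick (π v) (P.used c v) =
    Pool.Agent.Helper8.Sey.Sys.pick (π' v) (P.used c v)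
  rw [h]

theorem st_congr (ω : P.Om) (π π' : V → Equiv.Perm (Fin P.q)) (i : ℕ)
    (h : ∀ x, P.rd (ω x) < i → π x = π' x) :
    P.st (P.setpm ω π) i = P.st (P.setpm ω π') i := by
  induction i with
  | zero => rfl
  | succ i ih =>
    have h0 := ih fun x hx => h x (by omega)
    show P.stp (P.setpm ω π) i (P.st (P.setpm ω π) i) =
      P.stp (P.setpm ω π') i (P.st (P.setpm ω π') i)
    rw [h0]
    generalize P.st (P.setpm ω π') i = c
    funext v
    have hiff : (P.rd (P.setpm ω π v) = i ∧ ¬ P.used c v (P.pk (P.setpm ω π) c v) ∧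
      ∀ y, P.Own v y → P.idx y < P.idx v → c y = none → P.rd (P.setpm ω π y) = i →
        P.pk (P.setpm ω π) c y ≠ P.pk (P.setpm ω π) c v) ↔
      (P.rd (P.setpm ω π' v) = i ∧ ¬ P.used c v (P.pk (P.setpm ω π') c v) ∧
      ∀ y, P.Own v y → P.idx y < P.idx v → c y = none → P.rd (P.setpm ω π' y) = i →
        P.pk (P.setpm ω π') c y ≠ P.pk (P.setpm ω π') c v) := by
      have key : ∀ y, P.rd (ω y) = i →
          P.pk (P.setpm ω π) c y = P.pk (P.setpm ω π') c y := fun y hy =>
        pk_congr P ω π π' c y (h y (by omega))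
      constructor
      · rintro ⟨h1, h2, h3⟩
        have hv := key v h1
        refine ⟨h1, by rw [← hv]; exact h2, fun y hy hlt hc hr => ?_⟩
        rw [← hv, ← key y hr]
        exact h3 y hy hlt hc hr
      · rintro ⟨h1, h2, h3⟩
        have hv := key v h1
        refine ⟨h1, by rw [hv]; exact h2, fun y hy hlt hc hr => ?_⟩
        rw [hv, key y hr]
        exact h3 y hy hlt hc hr
    unfold Sy.stp
    by_cases hc : c v ≠ none
    · rw [if_pos hc, if_pos hc]
    · rw [if_neg hc, if_neg hc]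
      by_cases hp : P.rd (P.setpm ω π v) = i ∧ ¬ P.used c v (P.pk (P.setpm ω π) c v) ∧
        ∀ y, P.Own v y → P.idx y < P.idx v → c y = none → P.rd (P.setpm ω π y) = i →
          P.pk (P.setpm ω π) c y ≠ P.pk (P.setpm ω π) c v
      · rw [if_pos hp, if_pos (hiff.1 hp)]
        rw [pk_congr P ω π π' c v (h v (Nat.lt_succ_of_le hp.1.le))]
      · rw [if_neg hp, if_neg fun h' => hp (hiff.2 h')]

theorem goalSTL : GoalSTL := by
  intro V P ω π π' i h
  have h0 := st_congr P ω π π' i h
  refine ⟨h0, fun v hv => ?_⟩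
  rw [h0]
  exact pk_congr P ω π π' _ v hv

end Pool.Agent.Helper46.Sey3
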